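import Pool.Agent.H73.EQD.Stmts

/-!
Module ISO of project EQD: rotating the plane of the coordinates `1, 3`.
-/

open Real Set Topology

noncomputable section

namespace EQD

/-- Rotation by the angle `θ` in the plane of the coordinates `1, 3`. -/
def rotA (θ : ℝ) (x : E4) : E4 :=
  !₂[x 0, cos θ * x 1 - sin θ * x 3, x 2, sin θ * x 1 + cos θ * x 3]

/-- The angle of the isotopy. -/
def angA (t : ℝ) (x : E4) : ℝ := π / 2 * t * Real.smoothTransition (5 - 5 * ‖x‖ ^ 2)

theorem e4_norm_sq (x : E4) : ‖x‖ ^ 2 = x 0 ^ 2 + x 1 ^ 2 + x 2 ^ 2 + x 3 ^ 2 := by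
  rw [EuclideanSpace.norm_sq_eq]
  simp [Fin.sum_univ_four]

theorem rotA_norm_sq (θ : ℝ) (x : E4) : ‖rotA θ x‖ ^ 2 = ‖x‖ ^ 2 := by
  rw [e4_norm_sq, e4_norm_sq]
  simp only [rotA, PiLp.toLp_apply, Matrix.cons_val_zero, Matrix.cons_val_one, Matrix.cons_val]
  have := Real.sin_sq_add_cos_sq θ
  linear_combination (x 1 ^ 2 + x 3 ^ 2) * this

theorem rotA_norm (θ : ℝ) (x : E4) : ‖rotA θ x‖ = ‖x‖ := by
  have h := rotA_norm_sq θ x
  exact (pow_left_inj₀ (norm_nonneg _) (norm_nonneg _) two_ne_zero).1 h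

theorem rotA_neg_rotA (θ : ℝ) (x : E4) : rotA (-θ) (rotA θ x) = x := by
  have h := Real.sin_sq_add_cos_sq θ
  ext i
  fin_cases i
  · simp [rotA]
  · simp [rotA]
    linear_combination (x 1) * h
  · simp [rotA]
  · simp [rotA]
    linear_combination (x 3) * h

theorem rotA_rotA_neg (θ : ℝ) (x : E4) : rotA θ (rotA (-θ) x) = x := by
  have := rotA_neg_rotA (-θ) x
  rwa [neg_neg] at this

theorem rotA_half_pi (x : E4) : rotA (π / 2) x = Rq x := by
  ext i
  fin_cases i <;> simp [rotA, Rq]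

theorem rotA_zero (x : E4) : rotA 0 x = x := by
  ext i
  fin_cases i <;> simp [rotA]

theorem contDiff_rotA {f : ℝ × E4 → ℝ} (hf : ContDiff ℝ (⊤ : ℕ∞) f) :
    ContDiff ℝ (⊤ : ℕ∞) (fun q : ℝ × E4 => rotA (f q) q.2) := by
  have hc : ∀ i : Fin 4, ContDiff ℝ (⊤ : ℕ∞) (fun q : ℝ × E4 => q.2 i) := fun i =>
    (contDiff_euclidean.1 contDiff_snd) i
  have hcos : ContDiff ℝ (⊤ : ℕ∞) (fun q : ℝ × E4 => cos (f q)) := Real.contDiff_cos.comp hf
  have hsin : ContDiff ℝ (⊤ : ℕ∞) (fun q : ℝ × E4 => sin (f q)) := Real.contDiff_sin.comp hf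
  rw [contDiff_euclidean]
  intro i
  fin_cases i
  · simpa [rotA] using hc 0
  · simpa [rotA] using (hcos.mul (hc 1)).sub (hsin.mul (hc 3))
  · simpa [rotA] using hc 2
  · simpa [rotA] using (hsin.mul (hc 1)).add (hcos.mul (hc 3))

theorem contDiff_angA : ContDiff ℝ (⊤ : ℕ∞) (fun q : ℝ × E4 => angA q.1 q.2) := by
  unfold angA
  refine (contDiff_const.mul contDiff_fst).mul ?_
  exact Real.smoothTransition.contDiff.comp
    (contDiff_const.sub (contDiff_const.mul (contDiff_snd.norm_sq ℝ)))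

theorem angA_congr {t : ℝ} {x y : E4} (h : ‖x‖ = ‖y‖) : angA t x = angA t y := by
  unfold angA
  rw [h]

theorem iso : S_ISO := by
  intro D hD hflat
  have key1 : ∀ x : E4, ‖x‖ ^ 2 ≤ 4 / 5 → rotA (angA 1 x) x = Rq x := by
    intro x hx
    have h1 : Real.smoothTransition (5 - 5 * ‖x‖ ^ 2) = 1 :=
      Real.smoothTransition.one_of_one_le (by linarith)
    rw [angA, h1, mul_one, mul_one, rotA_half_pi]
  -- the outer part of `D`
  have key2 : ∀ (x : E4) (θ : ℝ), x ∈ D → 4 / 5 ≤ ‖x‖ ^ 2 → rotA θ x ∈ D := by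
    intro x θ hx hn
    have hB := hD hx
    have h0 := (hflat x hB hn).1 hx
    refine (hflat _ ?_ ?_).2 ?_
    · rw [B4, mem_closedBall_zero_iff, rotA_norm]
      rwa [B4, mem_closedBall_zero_iff] at hB
    · rwa [rotA_norm]
    · simpa [rotA] using h0
  refine ⟨fun t x => rotA (angA t x) x, fun t x => rotA (-angA t x) x, contDiff_rotA contDiff_angA,
    contDiff_rotA contDiff_angA.neg, ?_, ?_, ?_, ?_, ?_, ?_, ?_⟩
  · intro t x
    simp only
    rw [angA_congr (rotA_norm _ _), rotA_neg_rotA]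
  · intro t x
    simp only
    rw [angA_congr (rotA_norm _ _), rotA_rotA_neg]
  · intro t x hx
    rw [B4, mem_closedBall_zero_iff] at hx ⊢
    rwa [rotA_norm]
  · intro t x hx
    rw [B4, mem_closedBall_zero_iff] at hx ⊢
    rwa [rotA_norm]
  · intro t x hx
    rw [S3, mem_sphere_zero_iff_norm] at hx
    have h1 : Real.smoothTransition (5 - 5 * ‖x‖ ^ 2) = 0 :=
      Real.smoothTransition.zero_of_nonpos (by rw [hx]; norm_num)
    simp only [angA, h1, mul_zero, rotA_zero]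
  · intro x
    simp only [angA, mul_zero, zero_mul, rotA_zero]
  · ext y
    constructor
    · rintro ⟨x, hx, rfl⟩
      simp only
      rcases le_total (‖x‖ ^ 2) (4 / 5) with hn | hn
      · rw [key1 x hn]
        exact ⟨x, hx, rfl⟩
      · refine ⟨rotA (-(π / 2)) (rotA (angA 1 x) x), ?_, ?_⟩
        · exact key2 _ _ (key2 _ _ hx hn) (by rwa [rotA_norm])
        · rw [← rotA_half_pi, rotA_rotA_neg]
    · rintro ⟨x, hx, rfl⟩
      rcases le_total (‖x‖ ^ 2) (4 / 5) with hn | hn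
      · exact ⟨x, hx, key1 x hn⟩
      · refine ⟨rotA (-angA 1 x) (Rq x), ?_, ?_⟩
        · rw [← rotA_half_pi]
          exact key2 _ _ (key2 _ _ hx hn) (by rwa [rotA_norm])
        · simp only
          have h1 : angA 1 (rotA (-angA 1 x) (Rq x)) = angA 1 x := by
            apply angA_congr
            rw [rotA_norm, ← rotA_half_pi, rotA_norm]
          rw [h1, rotA_rotA_neg]

end EQD
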