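import Pool.Agent.H73.EQD.Stmts

/-!
Module KNOT of project EQD: the standard circle.
-/

open Real Set Topology

noncomputable section

namespace EQD

/-- The parametrisation of the circle. -/
def gamK (t : ℝ) : E4 := !₂[0, sin (2 * π * t), 0, cos (2 * π * t)]

theorem contDiff_gamK : ContDiff ℝ (⊤ : ℕ∞) gamK := by
  have h0 : ContDiff ℝ (⊤ : ℕ∞) (fun t : ℝ => 2 * π * t) := contDiff_const.mul contDiff_id
  rw [contDiff_euclidean]
  intro i
  fin_cases i
  · simpa [gamK] using (contDiff_const : ContDiff ℝ (⊤ : ℕ∞) (fun _ : ℝ => (0 : ℝ)))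
  · simpa [gamK] using h0.sin
  · simpa [gamK] using (contDiff_const : ContDiff ℝ (⊤ : ℕ∞) (fun _ : ℝ => (0 : ℝ)))
  · simpa [gamK] using h0.cos

theorem deriv_gamK_ne (t : ℝ) : deriv gamK t ≠ 0 := by
  intro h
  have hd : HasDerivAt gamK 0 t := by
    have := (contDiff_gamK.differentiable (by simp)).differentiableAt (x := t) |>.hasDerivAt
    rwa [h] at this
  have h0 : HasDerivAt (fun t : ℝ => 2 * π * t) (2 * π) t := by
    simpa using (hasDerivAt_id t).const_mul (2 * π)
  have hc : ∀ i : Fin 4, HasDerivAt (fun t => gamK t i) 0 t := by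
    intro i
    have := (EuclideanSpace.proj i : E4 →L[ℝ] ℝ).hasFDerivAt.comp_hasDerivAt t hd
    simpa [Function.comp_def] using this
  have h1 : cos (2 * π * t) * (2 * π) = 0 := by
    have h5 : HasDerivAt (fun t => sin (2 * π * t)) 0 t := by simpa [gamK] using hc 1
    exact h0.sin.unique h5
  have h3 : -sin (2 * π * t) * (2 * π) = 0 := by
    have h5 : HasDerivAt (fun t => cos (2 * π * t)) 0 t := by simpa [gamK] using hc 3
    exact h0.cos.unique h5
  have hpi : (2 * π) ≠ 0 := by positivity
  have h1' := (mul_eq_zero.1 h1).resolve_right hpi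
  have h3' := (mul_eq_zero.1 h3).resolve_right hpi
  have := Real.sin_sq_add_cos_sq (2 * π * t)
  rw [h1', neg_eq_zero.1 h3'] at this
  norm_num at this

theorem knot : S_KNOT := by
  refine ⟨gamK, contDiff_gamK, ?_, ?_, deriv_gamK_ne, ?_, ?_, ?_⟩
  · intro t
    have h : 2 * π * (t + 1) = 2 * π * t + 2 * π := by ring
    simp only [gamK, h, Real.sin_add_two_pi, Real.cos_add_two_pi]
  · intro s t hst
    have h1 : sin (2 * π * s) = sin (2 * π * t) := by
      have := congrArg (fun p : E4 => p 1) hst
      simpa [gamK] using this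
    have h3 : cos (2 * π * s) = cos (2 * π * t) := by
      have := congrArg (fun p : E4 => p 3) hst
      simpa [gamK] using this
    have h4 : cos (2 * π * s - 2 * π * t) = 1 := by
      rw [Real.cos_sub, h1, h3]
      have := Real.sin_sq_add_cos_sq (2 * π * t)
      linear_combination this
    obtain ⟨n, hn⟩ := (Real.cos_eq_one_iff _).1 h4
    refine ⟨n, ?_⟩
    have hpi : (2 * π) ≠ 0 := by positivity
    have h5 : (2 * π) * (s - t) = (2 * π) * n := by linarith
    exact mul_left_cancel₀ hpi h5
  · intro t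
    rw [S3, mem_sphere_zero_iff_norm]
    have h : ‖gamK t‖ ^ 2 = 1 := by
      rw [EuclideanSpace.norm_sq_eq]
      simp [Fin.sum_univ_four, gamK]
    have h2 : ‖gamK t‖ ^ 2 = 1 ^ 2 := by rw [h]; norm_num
    exact (pow_left_inj₀ (norm_nonneg _) (by norm_num) two_ne_zero).1 h2
  · intro t
    have h : 2 * π * (-t) = -(2 * π * t) := by ring
    ext i
    fin_cases i <;> simp [gamK, rho]
  · ext p
    constructor
    · rintro ⟨hS, h0, h2⟩
      rw [S3, mem_sphere_zero_iff_norm] at hS
      have hn : p 1 ^ 2 + p 3 ^ 2 = 1 := by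
        have h : ‖p‖ ^ 2 = 1 := by rw [hS]; norm_num
        rw [EuclideanSpace.norm_sq_eq] at h
        simpa [Fin.sum_univ_four, h0, h2] using h
      set z : ℂ := ⟨p 3, p 1⟩ with hz
      have hz1 : ‖z‖ = 1 := by
        have h : ‖z‖ ^ 2 = 1 ^ 2 := by
          rw [← Complex.normSq_eq_norm_sq, Complex.normSq_apply]
          simp only [hz]
          linarith
        exact (pow_left_inj₀ (norm_nonneg _) (by norm_num) two_ne_zero).1 h
      have hc : cos (Complex.arg z) = p 3 := by
        have := Complex.norm_mul_cos_arg z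
        rw [hz1, one_mul] at this
        rw [this]
      have hs : sin (Complex.arg z) = p 1 := by
        have := Complex.norm_mul_sin_arg z
        rw [hz1, one_mul] at this
        rw [this]
      refine ⟨Complex.arg z / (2 * π), ?_⟩
      have he : 2 * π * (Complex.arg z / (2 * π)) = Complex.arg z := by
        field_simp
      ext i
      simp only [gamK, he, hc, hs]
      fin_cases i <;> simp [h0, h2]
    · rintro ⟨t, rfl⟩
      refine ⟨?_, by simp [gamK], by simp [gamK]⟩
      rw [S3, mem_sphere_zero_iff_norm]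
      have h : ‖gamK t‖ ^ 2 = 1 := by
        rw [EuclideanSpace.norm_sq_eq]
        simp [Fin.sum_univ_four, gamK]
      have h2 : ‖gamK t‖ ^ 2 = 1 ^ 2 := by rw [h]; norm_num
      exact (pow_left_inj₀ (norm_nonneg _) (by norm_num) two_ne_zero).1 h2

end EQD
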